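import Mathlib

set_option autoImplicit false

open Finset

namespace Pool.Agent.Results.MP_ca6fba_co.Counter

/-- `WW E F C`: Waiter wins from the position with unclaimed vertices `F`, Client holding `C`. -/
inductive WW {n : ℕ} (E : Finset (Finset (Fin n))) : Finset (Fin n) → Finset (Fin n) → Prop
  | done (C : Finset (Fin n)) : (∀ e ∈ E, ¬ e ⊆ C) → WW E ∅ C
  | last (C : Finset (Fin n)) (v : Fin n) : (∀ e ∈ E, ¬ e ⊆ insert v C) → WW E {v} C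
  | offer (F C : Finset (Fin n)) (x y : Fin n) : x ∈ F → y ∈ F → x ≠ y →
      WW E (F \ {x, y}) (insert x C) → WW E (F \ {x, y}) (insert y C) → WW E F C

def L : Finset (Finset (Fin 8)) :=
  {{6, 0, 2, 5}, {6, 1, 3, 5}, {6, 0, 1, 3}, {6, 0, 2, 3}, {6, 1, 4, 5}, {6, 0, 1, 4},
   {6, 2, 4, 5}, {6, 2, 3, 4}, {7, 0, 2, 5}, {7, 0, 1, 2}, {7, 1, 3, 5}, {7, 1, 2, 3},
   {7, 0, 4, 5}, {7, 0, 1, 4}, {7, 3, 4, 5}, {7, 2, 3, 4}}

def H : Finset (Finset (Fin 8)) := (powersetCard 4 univ).filter (fun e => e ∉ L)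

lemma leaf (F C : Finset (Fin 8)) (hF : F = ∅) (h : C ∈ L) : WW H F C := by
  subst hF
  refine WW.done C (fun e he hs => ?_)
  have h4 : ∀ C ∈ L, C.card = 4 := by decide +kernel
  rw [H, mem_filter, mem_powersetCard] at he
  exact he.2 (eq_of_subset_of_card_le hs (by rw [h4 C h, he.1.2]) ▸ h)

lemma two (F C : Finset (Fin 8)) (a b c d : Fin 8) (h1 : a ∈ F ∧ b ∈ F ∧ a ≠ b)
    (h2 : c ∈ F \ {a, b} ∧ d ∈ F \ {a, b} ∧ c ≠ d) (h3 : (F \ {a, b}) \ {c, d} = ∅)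
    (h4 : insert c (insert a C) ∈ L ∧ insert d (insert a C) ∈ L ∧
      insert c (insert b C) ∈ L ∧ insert d (insert b C) ∈ L) : WW H F C :=
  WW.offer _ _ a b h1.1 h1.2.1 h1.2.2
    (WW.offer _ _ c d h2.1 h2.2.1 h2.2.2 (leaf _ _ h3 h4.1) (leaf _ _ h3 h4.2.1))
    (WW.offer _ _ c d h2.1 h2.2.1 h2.2.2 (leaf _ _ h3 h4.2.2.1) (leaf _ _ h3 h4.2.2.2))

lemma win : WW H univ ∅ := by
  refine WW.offer _ _ 6 7 (by decide) (by decide) (by decide)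
    (WW.offer _ _ 1 2 (by decide) (by decide) (by decide) (two _ _ 3 4 5 0 ?_ ?_ ?_ ?_)
      (two _ _ 0 4 5 3 ?_ ?_ ?_ ?_))
    (WW.offer _ _ 0 3 (by decide) (by decide) (by decide) (two _ _ 2 4 5 1 ?_ ?_ ?_ ?_)
      (two _ _ 1 4 5 2 ?_ ?_ ?_ ?_)) <;> decide +kernel

theorem result : ∃ (n : ℕ) (E : Finset (Finset (Fin n))), WW E univ ∅ ∧
    ¬ ∃ c : Fin n → Fin 2, ∀ e ∈ E, ¬ ∃ k, ∀ v ∈ e, c v = k := by
  refine ⟨8, H, win, ?_⟩
  rintro ⟨c, hc⟩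
  have key : ∀ X : Finset (Fin 8), ∃ e ∈ H, e ⊆ X ∨ e ⊆ Xᶜ := by decide +kernel
  obtain ⟨e, he, h | h⟩ := key (univ.filter (fun v => c v = 0))
  · exact hc e he ⟨0, fun v hv => by simpa using h hv⟩
  · refine hc e he ⟨1, fun v hv => ?_⟩
    have : c v ≠ 0 := by simpa using h hv
    omega

end Pool.Agent.Results.MP_ca6fba_co.Counter
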